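import Pool.Agent.H10.CE.Targets

/-! # Row OPN: the bilinear form and the trace -/

set_option autoImplicit false

open Finset Matrix

namespace Pool.Agent.H5.CE

open Pool.Agent.H10.CE

lemma gram {I J : ℕ} (A : Matrix (Fin I) (Fin J) ℂ) (v : Fin J → ℂ) :
    (star v ⬝ᵥ (Aᴴ * A).mulVec v).re = ∑ i, ‖A.mulVec v i‖ ^ 2 := by
  have h : star v ⬝ᵥ (Aᴴ * A).mulVec v = star (A.mulVec v) ⬝ᵥ A.mulVec v := by
    rw [← mulVec_mulVec, dotProduct_mulVec, ← star_mulVec]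
  rw [h, dotProduct, Complex.re_sum]
  refine Finset.sum_congr rfl fun i _ => ?_
  rw [Pi.star_apply, ← Complex.normSq_eq_norm_sq, RCLike.star_def,
    ← Complex.normSq_eq_conj_mul_self, Complex.ofReal_re]

theorem pf_OPN (hLOG : T_LOG) : T_OPN := by
  intro I J r A F G
  have h0 : ∑ i, ∑ j, F i * G j * A i j = ∑ i, F i * A.mulVec G i := by
    refine Finset.sum_congr rfl fun i _ => ?_
    rw [mulVec, dotProduct, Finset.mul_sum]
    exact Finset.sum_congr rfl fun j _ => by ring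
  have h1 : ‖∑ i, F i * A.mulVec G i‖ ^ 2 ≤ (∑ i, ‖F i‖ ^ 2) * ∑ i, ‖A.mulVec G i‖ ^ 2 := by
    refine le_trans ?_ (Finset.sum_mul_sq_le_sq_mul_sq _ _ _)
    refine pow_le_pow_left₀ (norm_nonneg _) ?_ 2
    refine (norm_sum_le _ _).trans (le_of_eq ?_)
    exact Finset.sum_congr rfl fun i _ => norm_mul _ _
  have h2 := hLOG J r (Aᴴ * A) G (isHermitian_conjTranspose_mul_self A) fun v => by
    rw [gram]
    positivity
  rw [gram] at h2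
  rw [h0, pow_mul]
  calc (‖∑ i, F i * A.mulVec G i‖ ^ 2) ^ 2 ^ r
      ≤ ((∑ i, ‖F i‖ ^ 2) * ∑ i, ‖A.mulVec G i‖ ^ 2) ^ 2 ^ r :=
        pow_le_pow_left₀ (by positivity) h1 _
    _ = (∑ i, ‖F i‖ ^ 2) ^ 2 ^ r * (∑ i, ‖A.mulVec G i‖ ^ 2) ^ 2 ^ r := mul_pow _ _ _
    _ ≤ (∑ i, ‖F i‖ ^ 2) ^ 2 ^ r * ((∑ j, ‖G j‖ ^ 2) ^ 2 ^ r *
          (((Aᴴ * A) ^ 2 ^ r).trace).re) := mul_le_mul_of_nonneg_left h2 (by positivity)
    _ = _ := by ring

end Pool.Agent.H5.CE
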