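import Pool.Agent.H98.CE.Targets
import Pool.Agent.H55.CG.Targets

/-!
# Composition over a jump (row CMP)
-/

set_option autoImplicit false

open MeasureTheory ProbabilityTheory Filter Topology
open Pool.Agent.H95 Pool.Agent.H95.Cop
open Pool.Agent.H55.CG (pz VV Mo)
open Pool.Agent.H98.CE

namespace Pool.Agent.H5.CE

theorem sum_cells (ℓ a L : ℕ) (F : ℕ → ℝ) (h : a ≤ L) :
    ∑ u ∈ Finset.Ico a L, ∑ y ∈ Finset.Ico (u * ℓ) ((u + 1) * ℓ), F y =
      ∑ y ∈ Finset.Ico (a * ℓ) (L * ℓ), F y := by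
  induction L, h using Nat.le_induction with
  | base => simp
  | succ L hL ih =>
    rw [Finset.sum_Ico_succ_top hL, ih]
    exact Finset.sum_Ico_consecutive F (Nat.mul_le_mul_right ℓ hL)
      (Nat.mul_le_mul_right ℓ (Nat.le_succ L))

theorem sum_rearrange (Y Z U W : Finset ℕ) (p c r : ℕ → ℕ → ℝ) :
    ∑ u ∈ U, ∑ v ∈ W, (∑ y ∈ Y, p y u) * c u v * (∑ z ∈ Z, r v z) =
      ∑ y ∈ Y, ∑ z ∈ Z, ∑ u ∈ U, ∑ v ∈ W, p y u * c u v * r v z := by
  calc ∑ u ∈ U, ∑ v ∈ W, (∑ y ∈ Y, p y u) * c u v * (∑ z ∈ Z, r v z)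
      = ∑ u ∈ U, ∑ v ∈ W, ∑ y ∈ Y, ∑ z ∈ Z, p y u * c u v * r v z := by
        refine Finset.sum_congr rfl fun u _ => Finset.sum_congr rfl fun v _ => ?_
        rw [Finset.sum_mul, Finset.sum_mul]
        exact Finset.sum_congr rfl fun y _ => Finset.mul_sum _ _ _
    _ = ∑ u ∈ U, ∑ y ∈ Y, ∑ v ∈ W, ∑ z ∈ Z, p y u * c u v * r v z :=
        Finset.sum_congr rfl fun u _ => Finset.sum_comm
    _ = ∑ y ∈ Y, ∑ u ∈ U, ∑ v ∈ W, ∑ z ∈ Z, p y u * c u v * r v z := Finset.sum_comm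
    _ = ∑ y ∈ Y, ∑ u ∈ U, ∑ z ∈ Z, ∑ v ∈ W, p y u * c u v * r v z :=
        Finset.sum_congr rfl fun y _ => Finset.sum_congr rfl fun u _ => Finset.sum_comm
    _ = ∑ y ∈ Y, ∑ z ∈ Z, ∑ u ∈ U, ∑ v ∈ W, p y u * c u v * r v z :=
        Finset.sum_congr rfl fun y _ => Finset.sum_comm

theorem jump_le (K : PMF ℕ) (ℓ : ℕ) (α κ : ℝ) (hℓ : 1 ≤ ℓ) (hα : 0 < α) (hκ : 0 ≤ κ)
    (hHK : HK K ℓ α κ) (hV : 0 < VV K ℓ) (x : ℕ → ℝ) (u v y z : ℕ) (huv : u + 2 ≤ v)
    (hy1 : u * ℓ ≤ y) (hy2 : y < (u + 1) * ℓ) (hz1 : v * ℓ ≤ z) (hz2 : z < (v + 1) * ℓ) :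
    lk α κ (v + 1 - u) / VV K ℓ ≤ kk K (z - y) * wt x y z := by
  have h1 : (u + 2) * ℓ ≤ v * ℓ := Nat.mul_le_mul_right ℓ huv
  have h2 : (u + 2) * ℓ = (u + 1) * ℓ + ℓ := by ring
  have hj : ℓ ≤ z - y := by omega
  have h3 := hHK (z - y) hj
  have hℓ0 : (0 : ℝ) < ℓ := by exact_mod_cast hℓ
  have hj0 : (0 : ℝ) < ((z - y : ℕ) : ℝ) := by
    have : 0 < z - y := by omega
    exact_mod_cast this
  have h4 : ((z - y : ℕ) : ℝ) / ℓ ≤ ((v + 1 - u : ℕ) : ℝ) := by
    rw [div_le_iff₀ hℓ0]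
    have h5 : z - y ≤ (v + 1 - u) * ℓ := by
      rw [Nat.sub_mul]
      omega
    exact_mod_cast h5
  have h6 : ((v + 1 - u : ℕ) : ℝ) ^ (-(1 + α)) ≤ (((z - y : ℕ) : ℝ) / ℓ) ^ (-(1 + α)) :=
    Real.rpow_le_rpow_of_nonpos (by positivity) h4 (by linarith)
  rw [div_le_iff₀ hV]
  unfold lk
  have h7 : κ * ((v + 1 - u : ℕ) : ℝ) ^ (-(1 + α)) ≤
      κ * (((z - y : ℕ) : ℝ) / ℓ) ^ (-(1 + α)) := mul_le_mul_of_nonneg_left h6 hκ
  refine (h7.trans h3).trans ?_
  apply mul_le_mul_of_nonneg_right _ hV.le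
  have h8 : 1 / 2 ≤ wt x y z := by
    unfold wt
    have := Real.exp_pos (H x y z)
    linarith
  have h9 := kk_nonneg K (z - y)
  nlinarith

theorem pf_CMP (hPZS : Pool.Agent.H55.CG.T_PZS) (hCHX : Pool.Agent.H55.CG.T_CHX)
    (hPCB : T_PCB) : T_CMP := by
  intro K ℓ α κ hℓ hα hκ hHK x a b L haL hLb
  have hV := (hPCB K ℓ hℓ).1
  have hpz : ∀ d y : ℕ, 0 ≤ pz K x d y := fun d y => (hPZS K x y d 0).2.2.1
  set V := VV K ℓ with hVd
  set p : ℕ → ℕ → ℝ := fun y u => ∑ y' ∈ Finset.Ico (u * ℓ) ((u + 1) * ℓ),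
    if y ≤ y' then pz K x (y' - y) y else 0 with hp
  set r : ℕ → ℕ → ℝ := fun v z => ∑ z' ∈ Finset.Ico (v * ℓ) ((v + 1) * ℓ),
    if z' ≤ z then pz K x (z - z') z' else 0 with hr
  set c : ℕ → ℕ → ℝ := fun u v => if u + 2 ≤ v then lk α κ (v + 1 - u) / V else 0 with hc
  have hlk : ∀ d, 0 ≤ lk α κ d := fun d => by
    unfold lk
    positivity
  -- the main inequality for two points
  have hkey : ∀ y ∈ Finset.Ico (a * ℓ) ((a + 1) * ℓ), ∀ z ∈ Finset.Ico (b * ℓ) ((b + 1) * ℓ),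
      ∑ u ∈ Finset.Ico a L, ∑ v ∈ Finset.Icc L b, p y u * c u v * r v z ≤
        if y ≤ z then pz K x (z - y) y else 0 := by
    intro y hy z hz
    rw [Finset.mem_Ico] at hy hz
    have h1 : (a + 1) * ℓ ≤ L * ℓ := Nat.mul_le_mul_right ℓ haL
    have h2 : L * ℓ ≤ b * ℓ := Nat.mul_le_mul_right ℓ hLb
    rw [if_pos (by omega)]
    refine le_trans ?_ (hCHX K x (L * ℓ) z (by omega) (Finset.Icc (L * ℓ) z) subset_rfl y
      (by omega))
    -- the sum over the arrival points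
    have hin : ∀ u ∈ Finset.Ico a L, ∀ y' ∈ Finset.Ico (u * ℓ) ((u + 1) * ℓ),
        ∑ v ∈ Finset.Icc L b, c u v * r v z ≤
          ∑ z' ∈ Finset.Icc (L * ℓ) z, kk K (z' - y') * wt x y' z' * pz K x (z - z') z' := by
      intro u hu y' hy'
      rw [Finset.mem_Ico] at hu hy'
      have h3 : ∑ v ∈ Finset.Icc L b, c u v * r v z ≤
          ∑ v ∈ Finset.Ico L (b + 1), ∑ z' ∈ Finset.Ico (v * ℓ) ((v + 1) * ℓ),
            if z' ≤ z then kk K (z' - y') * wt x y' z' * pz K x (z - z') z' else 0 := by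
        rw [show Finset.Icc L b = Finset.Ico L (b + 1) by
          ext w
          rw [Finset.mem_Icc, Finset.mem_Ico]
          omega]
        refine Finset.sum_le_sum fun v _ => ?_
        simp only [hr]
        rw [Finset.mul_sum]
        refine Finset.sum_le_sum fun z' hz' => ?_
        rw [Finset.mem_Ico] at hz'
        have hk0 : 0 ≤ kk K (z' - y') * wt x y' z' :=
          mul_nonneg (kk_nonneg K _) (wt_pos x y' z').le
        split_ifs with hle
        · refine mul_le_mul_of_nonneg_right ?_ (hpz _ _)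
          simp only [hc]
          split_ifs with huv
          · exact jump_le K ℓ α κ hℓ hα hκ hHK hV x u v y' z' huv hy'.1 hy'.2 hz'.1 hz'.2
          · exact hk0
        · rw [mul_zero]
      refine h3.trans (le_of_eq ?_)
      rw [sum_cells ℓ L (b + 1) _ (by omega), ← Finset.sum_filter]
      refine Finset.sum_congr ?_ fun _ _ => rfl
      ext w
      rw [Finset.mem_filter, Finset.mem_Ico, Finset.mem_Icc]
      omega
    calc ∑ u ∈ Finset.Ico a L, ∑ v ∈ Finset.Icc L b, p y u * c u v * r v z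
        = ∑ u ∈ Finset.Ico a L, ∑ y' ∈ Finset.Ico (u * ℓ) ((u + 1) * ℓ),
            (if y ≤ y' then pz K x (y' - y) y else 0) *
              ∑ v ∈ Finset.Icc L b, c u v * r v z := by
          refine Finset.sum_congr rfl fun u _ => ?_
          rw [← Finset.sum_mul, Finset.mul_sum]
          exact Finset.sum_congr rfl fun v _ => by ring
      _ ≤ ∑ u ∈ Finset.Ico a L, ∑ y' ∈ Finset.Ico (u * ℓ) ((u + 1) * ℓ),
            (if y ≤ y' then pz K x (y' - y) y *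
              ∑ z' ∈ Finset.Icc (L * ℓ) z, kk K (z' - y') * wt x y' z' * pz K x (z - z') z'
              else 0) := by
          refine Finset.sum_le_sum fun u hu => Finset.sum_le_sum fun y' hy' => ?_
          split_ifs with hle
          · exact mul_le_mul_of_nonneg_left (hin u hu y' hy') (hpz _ _)
          · rw [zero_mul]
      _ = ∑ y' ∈ Finset.Ico y (L * ℓ), pz K x (y' - y) y *
            ∑ z' ∈ Finset.Icc (L * ℓ) z, kk K (z' - y') * wt x y' z' * pz K x (z - z') z' := by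
          rw [sum_cells ℓ a L _ haL.le, ← Finset.sum_filter]
          refine Finset.sum_congr ?_ fun _ _ => rfl
          ext w
          rw [Finset.mem_filter, Finset.mem_Ico, Finset.mem_Ico]
          omega
  -- assembly
  have hS : ∀ u v : ℕ, (if u + 2 ≤ v then pc K ℓ x a u * lk α κ (v + 1 - u) * pc K ℓ x v b
      else 0) = (∑ y ∈ Finset.Ico (a * ℓ) ((a + 1) * ℓ), p y u) * c u v *
        (∑ z ∈ Finset.Ico (b * ℓ) ((b + 1) * ℓ), r v z) / V := by
    intro u v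
    simp only [hc, hp, hr]
    unfold pc
    rw [← hVd, Finset.sum_comm (s := Finset.Ico (b * ℓ) ((b + 1) * ℓ))]
    split_ifs with huv
    · field_simp
    · rw [mul_zero, zero_mul, zero_div]
  calc ∑ u ∈ Finset.Ico a L, ∑ v ∈ Finset.Icc L b,
      (if u + 2 ≤ v then pc K ℓ x a u * lk α κ (v + 1 - u) * pc K ℓ x v b else 0)
      = (∑ u ∈ Finset.Ico a L, ∑ v ∈ Finset.Icc L b,
          (∑ y ∈ Finset.Ico (a * ℓ) ((a + 1) * ℓ), p y u) * c u v *
          (∑ z ∈ Finset.Ico (b * ℓ) ((b + 1) * ℓ), r v z)) / V := by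
        rw [Finset.sum_div]
        refine Finset.sum_congr rfl fun u _ => ?_
        rw [Finset.sum_div]
        exact Finset.sum_congr rfl fun v _ => hS u v
    _ ≤ pc K ℓ x a b := by
        rw [sum_rearrange]
        unfold pc
        exact div_le_div_of_nonneg_right
          (Finset.sum_le_sum fun y hy => Finset.sum_le_sum fun z hz => hkey y hy z hz) hV.le

end Pool.Agent.H5.CE
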