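import Pool.Agent.H99.CE.Targets

/-!
# The new stretches over several boxes (row SR1)
-/

set_option autoImplicit false

open MeasureTheory ProbabilityTheory Filter Topology
open scoped ENNReal
open Pool.Agent.H95 Pool.Agent.H95.Cop Pool.Agent.H96.Cop Pool.Agent.H99.CE

namespace Pool.Agent.H5.CE

theorem wq_rpow_le (α t δ θ s : ℝ) (D : ℕ) (hα : 0 < α) (ht : 0 < t) (hδ : 0 < δ)
    (hθ : 0 < θ) (hs : 0 < s) (h : (1 + α) * θ = 1 + s) :
    (wq α D / ((1 + δ) * t)) ^ θ ≤ t ^ (-θ) * (1 / ((max (D - 1) 1 : ℕ) : ℝ)) := by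
  unfold wq
  set m : ℝ := ((max (D - 1) 1 : ℕ) : ℝ) with hm
  have hm1 : 1 ≤ m := by
    rw [hm]
    exact_mod_cast le_max_right _ _
  have hm0 : 0 < m := by linarith
  have h1 : m ^ (-(1 + α)) / ((1 + δ) * t) ≤ m ^ (-(1 + α)) / t := by
    apply div_le_div_of_nonneg_left (Real.rpow_nonneg hm0.le _) ht
    nlinarith
  have h2 : 0 ≤ m ^ (-(1 + α)) / ((1 + δ) * t) := by positivity
  refine (Real.rpow_le_rpow h2 h1 hθ.le).trans ?_
  rw [Real.div_rpow (Real.rpow_nonneg hm0.le _) ht.le, ← Real.rpow_mul hm0.le,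
    Real.rpow_neg ht.le, show -(1 + α) * θ = -(1 + s) by rw [← h]; ring, div_eq_mul_inv,
    mul_comm]
  refine mul_le_mul_of_nonneg_left ?_ (inv_nonneg.2 (Real.rpow_nonneg ht.le _))
  rw [one_div, ← Real.rpow_neg_one]
  exact Real.rpow_le_rpow_of_exponent_le hm1 (by linarith)

theorem ld_rpow_le (α t δ θ s : ℝ) (M D : ℕ) (hα : 0 < α) (ht : 0 < t) (hδ : 0 < δ)
    (hθ : 0 < θ) (hs : 0 < s) (h : (1 + α) * θ = 1 + s) :
    ld α t δ M D ^ θ ≤ if D ≤ M then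
      ENNReal.ofReal (t ^ (-θ) * (1 / ((max (D - 1) 1 : ℕ) : ℝ))) else 0 := by
  unfold ld
  split_ifs with hD
  · have h0 : 0 ≤ wq α D / ((1 + δ) * t) := by
      unfold wq
      positivity
    rw [ENNReal.ofReal_rpow_of_nonneg h0 hθ.le]
    exact ENNReal.ofReal_le_ofReal (wq_rpow_le α t δ θ s D hα ht hδ hθ hs h)
  · rw [ENNReal.zero_rpow_of_pos hθ]

theorem sum_inv_le (M : ℕ) (hM : 1 ≤ M) :
    ∑ D ∈ Finset.Icc 1 M, (1 / ((max (D - 1) 1 : ℕ) : ℝ)) ≤ 2 + Real.log M := by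
  obtain ⟨m, rfl⟩ : ∃ m, M = m + 1 := ⟨M - 1, by omega⟩
  have h1 : ∑ D ∈ Finset.Icc 1 (m + 1), (1 / ((max (D - 1) 1 : ℕ) : ℝ)) =
      1 + ∑ i ∈ Finset.range m, ((i : ℝ) + 1)⁻¹ := by
    clear hM
    induction m with
    | zero => simp
    | succ n ih =>
      rw [Finset.sum_Icc_succ_top (by omega), ih, Finset.sum_range_succ]
      have : (max (n + 1 + 1 - 1) 1 : ℕ) = n + 1 := by omega
      rw [this]
      push_cast
      ring
  rw [h1]
  have h2 := harmonic_le_one_add_log m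
  have h3 : ((harmonic m : ℚ) : ℝ) = ∑ i ∈ Finset.range m, ((i : ℝ) + 1)⁻¹ := by
    unfold harmonic
    push_cast
    rfl
  rw [h3] at h2
  have h4 : Real.log m ≤ Real.log ((m + 1 : ℕ) : ℝ) := by
    rcases Nat.eq_zero_or_pos m with h | h
    · subst h
      simp
    · exact Real.log_le_log (by exact_mod_cast h) (by push_cast; linarith)
  linarith

theorem sum_ld_le (α t δ θ s : ℝ) (M n : ℕ) (hM : 1 ≤ M) (hα : 0 < α) (ht : 0 < t) (hδ : 0 < δ)
    (hθ : 0 < θ) (hs : 0 < s) (h : (1 + α) * θ = 1 + s) :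
    ∑ D ∈ Finset.Icc 1 n, ld α t δ M D ^ θ ≤
      ENNReal.ofReal (t ^ (-θ) * (2 + Real.log M)) := by
  refine (Finset.sum_le_sum fun D _ => ld_rpow_le α t δ θ s M D hα ht hδ hθ hs h).trans ?_
  rw [← Finset.sum_filter]
  have h0 : ∀ D : ℕ, 0 ≤ t ^ (-θ) * (1 / ((max (D - 1) 1 : ℕ) : ℝ)) := fun D => by positivity
  refine (Finset.sum_le_sum_of_subset (t := Finset.Icc 1 M) ?_).trans ?_
  · intro D hD
    rw [Finset.mem_filter, Finset.mem_Icc] at hD
    rw [Finset.mem_Icc]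
    exact ⟨hD.1.1, hD.2⟩
  · rw [← ENNReal.ofReal_sum_of_nonneg fun D _ => h0 D, ← Finset.mul_sum]
    exact ENNReal.ofReal_le_ofReal
      (mul_le_mul_of_nonneg_left (sum_inv_le M hM) (Real.rpow_nonneg ht.le _))

theorem sum_mul_ld_le (α t δ θ s : ℝ) (M n : ℕ) (hα : 0 < α) (ht : 0 < t)
    (hδ : 0 < δ) (hθ : 0 < θ) (hs : 0 < s) (h : (1 + α) * θ = 1 + s) :
    ∑ D ∈ Finset.Icc 1 n, (D : ℝ≥0∞) * ld α t δ M D ^ θ ≤
      ENNReal.ofReal (2 * M * t ^ (-θ)) := by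
  have ht0 : 0 ≤ t ^ (-θ) := Real.rpow_nonneg ht.le _
  have hterm : ∀ D ∈ Finset.Icc 1 n, (D : ℝ≥0∞) * ld α t δ M D ^ θ ≤
      if D ≤ M then ENNReal.ofReal (2 * t ^ (-θ)) else 0 := by
    intro D hD
    rw [Finset.mem_Icc] at hD
    refine (mul_le_mul_right (ld_rpow_le α t δ θ s M D hα ht hδ hθ hs h) _).trans ?_
    split_ifs with hDM
    · rw [← ENNReal.ofReal_natCast, ← ENNReal.ofReal_mul (Nat.cast_nonneg _)]
      apply ENNReal.ofReal_le_ofReal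
      have hm1 : (1 : ℝ) ≤ ((max (D - 1) 1 : ℕ) : ℝ) := by exact_mod_cast le_max_right _ _
      have hm2 : (D : ℝ) ≤ 2 * ((max (D - 1) 1 : ℕ) : ℝ) := by
        have : D ≤ 2 * max (D - 1) 1 := by omega
        exact_mod_cast this
      have h5 : (D : ℝ) * (1 / ((max (D - 1) 1 : ℕ) : ℝ)) ≤ 2 := by
        rw [mul_one_div, div_le_iff₀ (by linarith)]
        exact hm2
      calc (D : ℝ) * (t ^ (-θ) * (1 / ((max (D - 1) 1 : ℕ) : ℝ))) =
          ((D : ℝ) * (1 / ((max (D - 1) 1 : ℕ) : ℝ))) * t ^ (-θ) := by ring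
        _ ≤ 2 * t ^ (-θ) := mul_le_mul_of_nonneg_right h5 ht0
    · rw [mul_zero]
  refine (Finset.sum_le_sum hterm).trans ?_
  rw [← Finset.sum_filter]
  refine (Finset.sum_le_sum_of_subset (t := Finset.Icc 1 M) ?_).trans ?_
  · intro D hD
    rw [Finset.mem_filter, Finset.mem_Icc] at hD
    rw [Finset.mem_Icc]
    exact ⟨hD.1.1, hD.2⟩
  · rw [Finset.sum_const, Nat.card_Icc, nsmul_eq_mul, Nat.add_sub_cancel,
      ← ENNReal.ofReal_natCast, ← ENNReal.ofReal_mul (Nat.cast_nonneg _)]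
    apply ENNReal.ofReal_le_ofReal
    exact le_of_eq (by ring)

theorem pf_SR1 (hPFM : T_PFM) (hLNK : T_LNK) (hSTR : T_STR) (hNAT : T_NAT) : T_SR1 := by
  intro K ν _ α σ c δ h P ε X M n0 k B hP hc hReg hk hkB hnB hQT hQR
  have hB : 1 ≤ B := hk.trans hkB
  obtain ⟨hna, ht, hnaM, -, -, hts, hsg, hnal⟩ :=
    hNAT α σ c δ k B M hP.α0 hP.σ0 hc hP.δ0 hk hkB hP.M1
  unfold QT at hQT
  unfold QR at hQR ⊢
  have ht0 := hP.t0
  have ht1 := hP.t1
  set θ := th α σ with hθ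
  set s := sg α σ with hs
  set t := tb α c δ B with htt
  set A := na α σ c δ k B with hA
  have hθ0 : 0 < θ := by linarith
  have hθ1 : θ ≤ 1 := by linarith [hP.α0]
  have hP0 : 0 ≤ P := by linarith [hP.P1]
  have hM0 : (1 : ℝ) ≤ M := by exact_mod_cast hP.M1
  have hA0 : ENNReal.ofReal A ≠ 0 := by
    rw [Ne, ENNReal.ofReal_eq_zero, not_le]
    exact hna
  rw [ENNReal.div_le_iff hA0 ENNReal.ofReal_ne_top, ← ENNReal.ofReal_mul hP0] at hQT hQR
  have htθ : 0 < t ^ (-θ) := Real.rpow_pos_of_pos ht _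
  have hAt : A * t ^ (-θ) ≤ α ^ 2 := by
    calc A * t ^ (-θ) ≤ α ^ 2 * t ^ θ * t ^ (-θ) := mul_le_mul_of_nonneg_right hnal htθ.le
      _ = α ^ 2 := by rw [mul_assoc, ← Real.rpow_add ht, add_neg_cancel, Real.rpow_zero, mul_one]
  have hlog : 0 ≤ Real.log M := Real.log_nonneg hM0
  have hsmall : ENNReal.ofReal (P * A) * ENNReal.ofReal (t ^ (-θ) * (2 + Real.log M)) ≤ 4⁻¹ := by
    rw [← ENNReal.ofReal_mul (by positivity)]
    have h1 : P * A * (t ^ (-θ) * (2 + Real.log M)) ≤ 1 / 4 := by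
      have h2 : P * A * (t ^ (-θ) * (2 + Real.log M)) =
          P * ((A * t ^ (-θ)) * (2 + Real.log M)) := by ring
      have h3 : (A * t ^ (-θ)) * (2 + Real.log M) ≤ α ^ 2 * (2 + Real.log M) :=
        mul_le_mul_of_nonneg_right hAt (by linarith)
      have h4 : α ^ 2 * (2 + Real.log M) ≤ (1 + ε) * h := by
        refine le_trans ?_ hP.c1
        apply mul_le_mul_of_nonneg_left _ (sq_nonneg _)
        have h5 : 0 ≤ (36 * α * P) ^ th α σ * (1 + 1 / sg α σ) := by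
          have := hP.α0
          positivity
        linarith
      rw [h2]
      have h6 : P * ((A * t ^ (-θ)) * (2 + Real.log M)) ≤ P * ((1 + ε) * h) :=
        mul_le_mul_of_nonneg_left (h3.trans h4) hP0
      have h7 := hP.c2
      have h8 : 0 ≤ P * ((1 + ε) * h) := by
        have := hP.ε0
        have := hP.h0
        positivity
      nlinarith
    calc ENNReal.ofReal (P * A * (t ^ (-θ) * (2 + Real.log M))) ≤ ENNReal.ofReal (1 / 4) :=
        ENNReal.ofReal_le_ofReal h1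
      _ = 4⁻¹ := by
        rw [one_div, ENNReal.ofReal_inv_of_pos (by norm_num)]
        norm_num
  obtain ⟨-, hmain⟩ := hSTR K ν B M (ld α t δ M) θ hB hP.M1 hθ0 hθ1
    (hLNK K α c δ n0 B M hP.α0 hc hP.δ0 hReg hB hnB) (ENNReal.ofReal (P * A))
    (ENNReal.ofReal (t ^ (-θ) * (2 + Real.log M))) (ENNReal.ofReal (P * A))
    (ENNReal.ofReal (2 * M * t ^ (-θ)))
    (fun n => (ENNReal.sum_le_tsum _).trans hQT)
    (fun n => sum_ld_le α t δ θ s M n hP.M1 hP.α0 ht hP.δ0 hθ0 hsg hts) hsmall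
    (fun n => (ENNReal.sum_le_tsum _).trans hQR)
    (fun n => sum_mul_ld_le α t δ θ s M n hP.α0 ht hP.δ0 hθ0 hsg hts)
  have htsum : ∑' b : ℕ, (b : ℝ≥0∞) * ∫⁻ x, BX (w1 K (M * B)) (M * B) b x ^ θ ∂(iid ν) ≤
      2 * (ENNReal.ofReal (P * A) + ENNReal.ofReal (P * A) ^ 2 *
        ENNReal.ofReal (2 * M * t ^ (-θ))) :=
    ENNReal.tsum_le_of_sum_range_le hmain
  rw [hnaM]
  have hMA : ENNReal.ofReal (M * A) ≠ 0 := by
    rw [Ne, ENNReal.ofReal_eq_zero, not_le]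
    positivity
  rw [ENNReal.div_le_iff hMA ENNReal.ofReal_ne_top]
  refine htsum.trans ?_
  rw [← ENNReal.ofReal_pow (by positivity), ← ENNReal.ofReal_mul (by positivity),
    ← ENNReal.ofReal_add (by positivity) (by positivity), ← ENNReal.ofReal_mul hP.ε0.le,
    show (2 : ℝ≥0∞) = ENNReal.ofReal 2 by norm_num, ← ENNReal.ofReal_mul (by norm_num)]
  apply ENNReal.ofReal_le_ofReal
  have h5 := hP.c5
  have h6 : (2 * P / M + 4 * α ^ 2 * P ^ 2) * (M * A) ≤ ε * (M * A) :=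
    mul_le_mul_of_nonneg_right h5 (by positivity)
  have h7 : (2 * P / M + 4 * α ^ 2 * P ^ 2) * (M * A) =
      2 * P * A + 4 * α ^ 2 * P ^ 2 * (M * A) := by
    field_simp
  have h8 : 4 * (A * t ^ (-θ)) * P ^ 2 * (M * A) ≤ 4 * α ^ 2 * P ^ 2 * (M * A) := by
    have : 0 ≤ P ^ 2 * (M * A) := by positivity
    nlinarith
  calc 2 * (P * A + (P * A) ^ 2 * (2 * M * t ^ (-θ))) =
      2 * P * A + 4 * (A * t ^ (-θ)) * P ^ 2 * (M * A) := by ring
    _ ≤ ε * (M * A) := by linarith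

end Pool.Agent.H5.CE
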